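import Pool.Agent.Helper36_F5H.StmtsK

/-!
# K_PHB (MP_f5cbfa_nt, squad F5H): numerical inequality, large vectors
-/

set_option autoImplicit false

namespace Pool.Agent.F5H.K2.H15

open Pool.Agent.F5H.K2

/-- monomials -/
theorem mono (M u ρ : ℝ) (hM : 1 ≤ M) (hu0 : 0 ≤ u) (hu : u ≤ 1) (hρ : 1 ≤ ρ) (a b c : ℕ)
    (ha : a ≤ 8) (hb : 2 ≤ b) (hc : c ≤ 2) : M ^ a * u ^ b * ρ ^ c ≤ M ^ 8 * (ρ ^ 2 * u ^ 2) := by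
  have h1 : M ^ a ≤ M ^ 8 := pow_le_pow_right₀ hM ha
  have h2 : u ^ b ≤ u ^ 2 := pow_le_pow_of_le_one hu0 hu hb
  have h3 : ρ ^ c ≤ ρ ^ 2 := pow_le_pow_right₀ hρ hc
  have hM0 : 0 ≤ M := by linarith
  have hρ0 : 0 ≤ ρ := by linarith
  calc M ^ a * u ^ b * ρ ^ c ≤ M ^ 8 * u ^ 2 * ρ ^ 2 :=
        mul_le_mul (mul_le_mul h1 h2 (pow_nonneg hu0 b) (pow_nonneg hM0 8)) h3 (pow_nonneg hρ0 c)
          (mul_nonneg (pow_nonneg hM0 8) (sq_nonneg u))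
    _ = M ^ 8 * (ρ ^ 2 * u ^ 2) := by ring

/-- the polynomial inequality; `r = √R`, `i = 1/r`, `v = 1/V` -/
theorem core (M V₁ V₂ r i v1 v2 u ρ : ℝ) (hM : 1 ≤ M) (hV1 : 0 < V₁) (hV2 : 0 < V₂) (hr : 0 < r)
    (hi : 0 < i) (hi1 : i ≤ 1) (hv1 : 0 < v1) (hv2 : 0 < v2) (eri : r * i = 1) (e1 : V₁ * v1 = 1)
    (e2 : V₂ * v2 = 1) (eρ : V₁ * v2 = ρ) (hρ : 1 ≤ ρ) (hu0 : 0 < u) (hu : u ≤ 1)
    (h1 : r ^ 4 * v1 * v2 ≤ M ^ 2) (h2 : r ^ 2 * v1 ≤ M) (h3 : r * v1 ≤ M * u ^ 2)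
    (h4 : r * v2 ≤ M) (h5 : i ^ 2 ≤ u) (h6 : v2 ≤ u ^ 4) (h7 : v1 ≤ u ^ 4) :
    r ^ 6 * v1 ^ 2 * v2 ^ 2 * ((18 * M ^ 2 + 8 * M ^ 4 * V₁ ^ 2 * i ^ 8) *
        (18 * M ^ 2 + 8 * M ^ 4 * V₂ ^ 2 * i ^ 8) +
      (18 * M ^ 2 + 8 * M ^ 4 * V₁ ^ 2 * i ^ 8) * (V₂ * (2 * M * i + 2 * M ^ 2 * V₂ * i ^ 4)) +
      (18 * M ^ 2 + 8 * M ^ 4 * V₂ ^ 2 * i ^ 8) * (V₁ * (2 * M * i + 2 * M ^ 2 * V₁ * i ^ 4)) +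
      V₁ ^ 3 * (u ^ 3 + i ^ 2) * v2 * ((2 * M * i + 2 * M ^ 2 * V₁ * i ^ 4) *
        (2 * M * i + 2 * M ^ 2 * V₂ * i ^ 4))) ≤ 1000 * (M ^ 8 * (ρ ^ 2 * u ^ 2)) := by
  have hM0 : 0 < M := by linarith
  have hρ0 : 0 < ρ := by linarith
  have mn := mono M u ρ hM hu0.le hu hρ
  have hu4 : u ^ 4 ≤ 1 := pow_le_one₀ hu0.le hu
  have hv2' : v2 ≤ 1 := h6.trans hu4
  have hv1' : v1 ≤ 1 := h7.trans hu4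
  have eρ2 : r * v2 = (r * v1) * ρ := by
    rw [← eρ]
    calc r * v2 = r * v2 * (V₁ * v1) := by rw [e1, mul_one]
      _ = r * v1 * (V₁ * v2) := by ring
  -- the monomials
  have m1 : r ^ 6 * v1 ^ 2 * v2 ^ 2 ≤ M ^ 3 * u ^ 4 := by
    calc r ^ 6 * v1 ^ 2 * v2 ^ 2 = (r ^ 4 * v1 * v2) * (r ^ 2 * v1) * v2 := by ring
      _ ≤ M ^ 2 * M * u ^ 4 := by gcongr
      _ = M ^ 3 * u ^ 4 := by ring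
  have m2 : r ^ 5 * v1 ^ 2 * v2 ≤ M ^ 3 * u ^ 2 := by
    calc r ^ 5 * v1 ^ 2 * v2 = (r ^ 4 * v1 * v2) * (r * v1) := by ring
      _ ≤ M ^ 2 * (M * u ^ 2) := by gcongr
      _ = M ^ 3 * u ^ 2 := by ring
  have m3 : r ^ 5 * v1 * v2 ^ 2 ≤ M ^ 3 * u ^ 2 * ρ := by
    calc r ^ 5 * v1 * v2 ^ 2 = (r ^ 4 * v1 * v2) * (r * v2) := by ring
      _ = (r ^ 4 * v1 * v2) * ((r * v1) * ρ) := by rw [eρ2]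
      _ ≤ M ^ 2 * ((M * u ^ 2) * ρ) := by gcongr
      _ = M ^ 3 * u ^ 2 * ρ := by ring
  have m4 : r ^ 2 * v1 ^ 2 ≤ M * u ^ 4 := by
    calc r ^ 2 * v1 ^ 2 = (r ^ 2 * v1) * v1 := by ring
      _ ≤ M * u ^ 4 := by gcongr
  have m5 : r ^ 2 * v2 ^ 2 ≤ M * u ^ 4 * ρ := by
    calc r ^ 2 * v2 ^ 2 = r ^ 2 * v2 ^ 2 * (V₁ * v1) := by rw [e1, mul_one]
      _ = (r ^ 2 * v1) * v2 * (V₁ * v2) := by ring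
      _ ≤ M * u ^ 4 * ρ := by rw [eρ]; gcongr
  have m6 : V₁ * v2 ^ 3 * r ^ 4 ≤ M ^ 2 * ρ ^ 2 := by
    calc V₁ * v2 ^ 3 * r ^ 4 = V₁ * v2 ^ 3 * r ^ 4 * (V₁ * v1) := by rw [e1, mul_one]
      _ = (r ^ 4 * v1 * v2) * (V₁ * v2) ^ 2 := by ring
      _ ≤ M ^ 2 * ρ ^ 2 := by rw [eρ]; gcongr
  have m7 : V₁ * v2 ^ 3 * r ^ 2 ≤ M * u ^ 4 * ρ ^ 2 := by
    calc V₁ * v2 ^ 3 * r ^ 2 = V₁ * v2 ^ 3 * r ^ 2 * (V₁ * v1) := by rw [e1, mul_one]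
      _ = (r ^ 2 * v1) * v2 * (V₁ * v2) ^ 2 := by ring
      _ ≤ M * u ^ 4 * ρ ^ 2 := by rw [eρ]; gcongr
  have m8 : V₁ ^ 2 * v2 ^ 3 * r ≤ M * ρ ^ 2 := by
    calc V₁ ^ 2 * v2 ^ 3 * r = (r * v2) * (V₁ * v2) ^ 2 := by ring
      _ ≤ M * ρ ^ 2 := by rw [eρ]; gcongr
  have m9 : V₁ ^ 2 * v2 ^ 3 * i ≤ u ^ 4 * ρ ^ 2 := by
    calc V₁ ^ 2 * v2 ^ 3 * i = v2 * i * (V₁ * v2) ^ 2 := by ring
      _ ≤ u ^ 4 * 1 * ρ ^ 2 := by rw [eρ]; gcongr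
      _ = u ^ 4 * ρ ^ 2 := by ring
  have i3 : i ^ 3 ≤ u := by
    calc i ^ 3 = i ^ 2 * i := by ring
      _ ≤ u * 1 := by gcongr
      _ = u := by ring
  have i6 : i ^ 6 ≤ u ^ 3 := by
    calc i ^ 6 = (i ^ 2) ^ 3 := by ring
      _ ≤ u ^ 3 := by gcongr
  have i10 : i ^ 10 ≤ u ^ 5 := by
    calc i ^ 10 = (i ^ 2) ^ 5 := by ring
      _ ≤ u ^ 5 := by gcongr
  have i4 : i ^ 4 ≤ u ^ 2 := by
    calc i ^ 4 = (i ^ 2) ^ 2 := by ring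
      _ ≤ u ^ 2 := by gcongr
  have hW : 0 ≤ M ^ 8 * (ρ ^ 2 * u ^ 2) := by positivity
  -- term A
  have hA : r ^ 6 * v1 ^ 2 * v2 ^ 2 * ((18 * M ^ 2 + 8 * M ^ 4 * V₁ ^ 2 * i ^ 8) *
        (18 * M ^ 2 + 8 * M ^ 4 * V₂ ^ 2 * i ^ 8)) ≤ 676 * (M ^ 8 * (ρ ^ 2 * u ^ 2)) := by
    have e : r ^ 6 * v1 ^ 2 * v2 ^ 2 * ((18 * M ^ 2 + 8 * M ^ 4 * V₁ ^ 2 * i ^ 8) *
        (18 * M ^ 2 + 8 * M ^ 4 * V₂ ^ 2 * i ^ 8)) =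
        324 * (M ^ 4 * (r ^ 6 * v1 ^ 2 * v2 ^ 2)) +
        144 * (M ^ 6 * ((r * i) ^ 6 * (V₁ * v1) ^ 2 * (i ^ 2 * v2 ^ 2))) +
        144 * (M ^ 6 * ((r * i) ^ 6 * (V₂ * v2) ^ 2 * (i ^ 2 * v1 ^ 2))) +
        64 * (M ^ 8 * ((r * i) ^ 6 * (V₁ * v1) ^ 2 * (V₂ * v2) ^ 2 * i ^ 10)) := by ring
    rw [e, eri, e1, e2]
    simp only [one_pow, one_mul]
    have a1 : M ^ 4 * (r ^ 6 * v1 ^ 2 * v2 ^ 2) ≤ M ^ 8 * (ρ ^ 2 * u ^ 2) := by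
      calc M ^ 4 * (r ^ 6 * v1 ^ 2 * v2 ^ 2) ≤ M ^ 4 * (M ^ 3 * u ^ 4) := by gcongr
        _ = M ^ 7 * u ^ 4 * ρ ^ 0 := by ring
        _ ≤ _ := mn 7 4 0 (by norm_num) (by norm_num) (by norm_num)
    have a2 : M ^ 6 * (i ^ 2 * v2 ^ 2) ≤ M ^ 8 * (ρ ^ 2 * u ^ 2) := by
      calc M ^ 6 * (i ^ 2 * v2 ^ 2) ≤ M ^ 6 * (u * (u ^ 4) ^ 2) := by gcongr
        _ = M ^ 6 * u ^ 9 * ρ ^ 0 := by ring
        _ ≤ _ := mn 6 9 0 (by norm_num) (by norm_num) (by norm_num)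
    have a3 : M ^ 6 * (i ^ 2 * v1 ^ 2) ≤ M ^ 8 * (ρ ^ 2 * u ^ 2) := by
      calc M ^ 6 * (i ^ 2 * v1 ^ 2) ≤ M ^ 6 * (u * (u ^ 4) ^ 2) := by gcongr
        _ = M ^ 6 * u ^ 9 * ρ ^ 0 := by ring
        _ ≤ _ := mn 6 9 0 (by norm_num) (by norm_num) (by norm_num)
    have a4 : M ^ 8 * i ^ 10 ≤ M ^ 8 * (ρ ^ 2 * u ^ 2) := by
      calc M ^ 8 * i ^ 10 ≤ M ^ 8 * u ^ 5 := by gcongr
        _ = M ^ 8 * u ^ 5 * ρ ^ 0 := by ring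
        _ ≤ _ := mn 8 5 0 (by norm_num) (by norm_num) (by norm_num)
    linarith
  have hB : r ^ 6 * v1 ^ 2 * v2 ^ 2 * ((18 * M ^ 2 + 8 * M ^ 4 * V₁ ^ 2 * i ^ 8) *
      (V₂ * (2 * M * i + 2 * M ^ 2 * V₂ * i ^ 4))) ≤ 104 * (M ^ 8 * (ρ ^ 2 * u ^ 2)) := by
    have e : r ^ 6 * v1 ^ 2 * v2 ^ 2 * ((18 * M ^ 2 + 8 * M ^ 4 * V₁ ^ 2 * i ^ 8) *
      (V₂ * (2 * M * i + 2 * M ^ 2 * V₂ * i ^ 4))) =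
        36 * (M ^ 3 * ((r * i) * (V₂ * v2) * (r ^ 5 * v1 ^ 2 * v2))) +
        36 * (M ^ 4 * ((r * i) ^ 4 * (V₂ * v2) ^ 2 * (r ^ 2 * v1 ^ 2))) +
        16 * (M ^ 5 * ((r * i) ^ 6 * (V₁ * v1) ^ 2 * (V₂ * v2) * (v2 * i ^ 3))) +
        16 * (M ^ 6 * ((r * i) ^ 6 * (V₁ * v1) ^ 2 * (V₂ * v2) ^ 2 * i ^ 6)) := by ring
    rw [e, eri, e1, e2]
    simp only [one_pow, one_mul]
    have a1 : M ^ 3 * (r ^ 5 * v1 ^ 2 * v2) ≤ M ^ 8 * (ρ ^ 2 * u ^ 2) := by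
      calc M ^ 3 * (r ^ 5 * v1 ^ 2 * v2) ≤ M ^ 3 * (M ^ 3 * u ^ 2) := by gcongr
        _ = M ^ 6 * u ^ 2 * ρ ^ 0 := by ring
        _ ≤ _ := mn 6 2 0 (by norm_num) (by norm_num) (by norm_num)
    have a2 : M ^ 4 * (r ^ 2 * v1 ^ 2) ≤ M ^ 8 * (ρ ^ 2 * u ^ 2) := by
      calc M ^ 4 * (r ^ 2 * v1 ^ 2) ≤ M ^ 4 * (M * u ^ 4) := by gcongr
        _ = M ^ 5 * u ^ 4 * ρ ^ 0 := by ring
        _ ≤ _ := mn 5 4 0 (by norm_num) (by norm_num) (by norm_num)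
    have a3 : M ^ 5 * (v2 * i ^ 3) ≤ M ^ 8 * (ρ ^ 2 * u ^ 2) := by
      calc M ^ 5 * (v2 * i ^ 3) ≤ M ^ 5 * (u ^ 4 * u) := by gcongr
        _ = M ^ 5 * u ^ 5 * ρ ^ 0 := by ring
        _ ≤ _ := mn 5 5 0 (by norm_num) (by norm_num) (by norm_num)
    have a4 : M ^ 6 * i ^ 6 ≤ M ^ 8 * (ρ ^ 2 * u ^ 2) := by
      calc M ^ 6 * i ^ 6 ≤ M ^ 6 * u ^ 3 := by gcongr
        _ = M ^ 6 * u ^ 3 * ρ ^ 0 := by ring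
        _ ≤ _ := mn 6 3 0 (by norm_num) (by norm_num) (by norm_num)
    linarith
  have hC : r ^ 6 * v1 ^ 2 * v2 ^ 2 * ((18 * M ^ 2 + 8 * M ^ 4 * V₂ ^ 2 * i ^ 8) *
      (V₁ * (2 * M * i + 2 * M ^ 2 * V₁ * i ^ 4))) ≤ 104 * (M ^ 8 * (ρ ^ 2 * u ^ 2)) := by
    have e : r ^ 6 * v1 ^ 2 * v2 ^ 2 * ((18 * M ^ 2 + 8 * M ^ 4 * V₂ ^ 2 * i ^ 8) *
      (V₁ * (2 * M * i + 2 * M ^ 2 * V₁ * i ^ 4))) =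
        36 * (M ^ 3 * ((r * i) * (V₁ * v1) * (r ^ 5 * v1 * v2 ^ 2))) +
        36 * (M ^ 4 * ((r * i) ^ 4 * (V₁ * v1) ^ 2 * (r ^ 2 * v2 ^ 2))) +
        16 * (M ^ 5 * ((r * i) ^ 6 * (V₂ * v2) ^ 2 * (V₁ * v1) * (v1 * i ^ 3))) +
        16 * (M ^ 6 * ((r * i) ^ 6 * (V₁ * v1) ^ 2 * (V₂ * v2) ^ 2 * i ^ 6)) := by ring
    rw [e, eri, e1, e2]
    simp only [one_pow, one_mul]
    have a1 : M ^ 3 * (r ^ 5 * v1 * v2 ^ 2) ≤ M ^ 8 * (ρ ^ 2 * u ^ 2) := by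
      calc M ^ 3 * (r ^ 5 * v1 * v2 ^ 2) ≤ M ^ 3 * (M ^ 3 * u ^ 2 * ρ) := by gcongr
        _ = M ^ 6 * u ^ 2 * ρ ^ 1 := by ring
        _ ≤ _ := mn 6 2 1 (by norm_num) (by norm_num) (by norm_num)
    have a2 : M ^ 4 * (r ^ 2 * v2 ^ 2) ≤ M ^ 8 * (ρ ^ 2 * u ^ 2) := by
      calc M ^ 4 * (r ^ 2 * v2 ^ 2) ≤ M ^ 4 * (M * u ^ 4 * ρ) := by gcongr
        _ = M ^ 5 * u ^ 4 * ρ ^ 1 := by ring
        _ ≤ _ := mn 5 4 1 (by norm_num) (by norm_num) (by norm_num)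
    have a3 : M ^ 5 * (v1 * i ^ 3) ≤ M ^ 8 * (ρ ^ 2 * u ^ 2) := by
      calc M ^ 5 * (v1 * i ^ 3) ≤ M ^ 5 * (u ^ 4 * u) := by gcongr
        _ = M ^ 5 * u ^ 5 * ρ ^ 0 := by ring
        _ ≤ _ := mn 5 5 0 (by norm_num) (by norm_num) (by norm_num)
    have a4 : M ^ 6 * i ^ 6 ≤ M ^ 8 * (ρ ^ 2 * u ^ 2) := by
      calc M ^ 6 * i ^ 6 ≤ M ^ 6 * u ^ 3 := by gcongr
        _ = M ^ 6 * u ^ 3 * ρ ^ 0 := by ring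
        _ ≤ _ := mn 6 3 0 (by norm_num) (by norm_num) (by norm_num)
    linarith
  have hD : r ^ 6 * v1 ^ 2 * v2 ^ 2 * (V₁ ^ 3 * (u ^ 3 + i ^ 2) * v2 *
      ((2 * M * i + 2 * M ^ 2 * V₁ * i ^ 4) * (2 * M * i + 2 * M ^ 2 * V₂ * i ^ 4))) ≤
      64 * (M ^ 8 * (ρ ^ 2 * u ^ 2)) := by
    have e : r ^ 6 * v1 ^ 2 * v2 ^ 2 * (V₁ ^ 3 * (u ^ 3 + i ^ 2) * v2 *
      ((2 * M * i + 2 * M ^ 2 * V₁ * i ^ 4) * (2 * M * i + 2 * M ^ 2 * V₂ * i ^ 4))) =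
        4 * (M ^ 2 * u ^ 3 * ((r * i) ^ 2 * (V₁ * v1) ^ 2 * (V₁ * v2 ^ 3 * r ^ 4))) +
        4 * (M ^ 2 * ((r * i) ^ 4 * (V₁ * v1) ^ 2 * (V₁ * v2 ^ 3 * r ^ 2))) +
        4 * (M ^ 3 * u ^ 3 * ((r * i) ^ 5 * (V₁ * v1) ^ 2 * (V₁ ^ 2 * v2 ^ 3 * r))) +
        4 * (M ^ 3 * ((r * i) ^ 6 * (V₁ * v1) ^ 2 * (V₁ ^ 2 * v2 ^ 3 * i))) +
        4 * (M ^ 3 * u ^ 3 * ((r * i) ^ 5 * (V₁ * v1) ^ 2 * (V₂ * v2) * (V₁ * v2 ^ 2 * r))) +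
        4 * (M ^ 3 * ((r * i) ^ 6 * (V₁ * v1) ^ 2 * (V₂ * v2) * (V₁ * v2 ^ 2 * i))) +
        4 * (M ^ 4 * u ^ 3 * ((r * i) ^ 6 * (V₁ * v1) ^ 2 * (V₂ * v2) * ((V₁ * v2) ^ 2 * i ^ 2))) +
        4 * (M ^ 4 * ((r * i) ^ 6 * (V₁ * v1) ^ 2 * (V₂ * v2) * ((V₁ * v2) ^ 2 * i ^ 4))) := by ring
    rw [e, eri, e1, e2, eρ]
    simp only [one_pow, one_mul]
    have n8 : V₁ * v2 ^ 2 * r ≤ M * ρ := by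
      calc V₁ * v2 ^ 2 * r = (r * v2) * (V₁ * v2) := by ring
        _ ≤ M * ρ := by rw [eρ]; gcongr
    have n9 : V₁ * v2 ^ 2 * i ≤ u ^ 4 * ρ := by
      calc V₁ * v2 ^ 2 * i = v2 * i * (V₁ * v2) := by ring
        _ ≤ u ^ 4 * 1 * ρ := by rw [eρ]; gcongr
        _ = u ^ 4 * ρ := by ring
    have a1 : M ^ 2 * u ^ 3 * (V₁ * v2 ^ 3 * r ^ 4) ≤ M ^ 8 * (ρ ^ 2 * u ^ 2) := by
      calc M ^ 2 * u ^ 3 * (V₁ * v2 ^ 3 * r ^ 4) ≤ M ^ 2 * u ^ 3 * (M ^ 2 * ρ ^ 2) := by gcongr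
        _ = M ^ 4 * u ^ 3 * ρ ^ 2 := by ring
        _ ≤ _ := mn 4 3 2 (by norm_num) (by norm_num) (by norm_num)
    have a2 : M ^ 2 * (V₁ * v2 ^ 3 * r ^ 2) ≤ M ^ 8 * (ρ ^ 2 * u ^ 2) := by
      calc M ^ 2 * (V₁ * v2 ^ 3 * r ^ 2) ≤ M ^ 2 * (M * u ^ 4 * ρ ^ 2) := by gcongr
        _ = M ^ 3 * u ^ 4 * ρ ^ 2 := by ring
        _ ≤ _ := mn 3 4 2 (by norm_num) (by norm_num) (by norm_num)
    have a3 : M ^ 3 * u ^ 3 * (V₁ ^ 2 * v2 ^ 3 * r) ≤ M ^ 8 * (ρ ^ 2 * u ^ 2) := by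
      calc M ^ 3 * u ^ 3 * (V₁ ^ 2 * v2 ^ 3 * r) ≤ M ^ 3 * u ^ 3 * (M * ρ ^ 2) := by gcongr
        _ = M ^ 4 * u ^ 3 * ρ ^ 2 := by ring
        _ ≤ _ := mn 4 3 2 (by norm_num) (by norm_num) (by norm_num)
    have a4 : M ^ 3 * (V₁ ^ 2 * v2 ^ 3 * i) ≤ M ^ 8 * (ρ ^ 2 * u ^ 2) := by
      calc M ^ 3 * (V₁ ^ 2 * v2 ^ 3 * i) ≤ M ^ 3 * (u ^ 4 * ρ ^ 2) := by gcongr
        _ = M ^ 3 * u ^ 4 * ρ ^ 2 := by ring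
        _ ≤ _ := mn 3 4 2 (by norm_num) (by norm_num) (by norm_num)
    have a5 : M ^ 3 * u ^ 3 * (V₁ * v2 ^ 2 * r) ≤ M ^ 8 * (ρ ^ 2 * u ^ 2) := by
      calc M ^ 3 * u ^ 3 * (V₁ * v2 ^ 2 * r) ≤ M ^ 3 * u ^ 3 * (M * ρ) := by gcongr
        _ = M ^ 4 * u ^ 3 * ρ ^ 1 := by ring
        _ ≤ _ := mn 4 3 1 (by norm_num) (by norm_num) (by norm_num)
    have a6 : M ^ 3 * (V₁ * v2 ^ 2 * i) ≤ M ^ 8 * (ρ ^ 2 * u ^ 2) := by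
      calc M ^ 3 * (V₁ * v2 ^ 2 * i) ≤ M ^ 3 * (u ^ 4 * ρ) := by gcongr
        _ = M ^ 3 * u ^ 4 * ρ ^ 1 := by ring
        _ ≤ _ := mn 3 4 1 (by norm_num) (by norm_num) (by norm_num)
    have a7 : M ^ 4 * u ^ 3 * (ρ ^ 2 * i ^ 2) ≤ M ^ 8 * (ρ ^ 2 * u ^ 2) := by
      calc M ^ 4 * u ^ 3 * (ρ ^ 2 * i ^ 2) ≤ M ^ 4 * u ^ 3 * (ρ ^ 2 * u) := by gcongr
        _ = M ^ 4 * u ^ 4 * ρ ^ 2 := by ring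
        _ ≤ _ := mn 4 4 2 (by norm_num) (by norm_num) (by norm_num)
    have a8 : M ^ 4 * (ρ ^ 2 * i ^ 4) ≤ M ^ 8 * (ρ ^ 2 * u ^ 2) := by
      calc M ^ 4 * (ρ ^ 2 * i ^ 4) ≤ M ^ 4 * (ρ ^ 2 * u ^ 2) := by gcongr
        _ = M ^ 4 * u ^ 2 * ρ ^ 2 := by ring
        _ ≤ _ := mn 4 2 2 (by norm_num) (by norm_num) (by norm_num)
    linarith
  calc _ = r ^ 6 * v1 ^ 2 * v2 ^ 2 * ((18 * M ^ 2 + 8 * M ^ 4 * V₁ ^ 2 * i ^ 8) *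
        (18 * M ^ 2 + 8 * M ^ 4 * V₂ ^ 2 * i ^ 8)) +
      r ^ 6 * v1 ^ 2 * v2 ^ 2 * ((18 * M ^ 2 + 8 * M ^ 4 * V₁ ^ 2 * i ^ 8) *
        (V₂ * (2 * M * i + 2 * M ^ 2 * V₂ * i ^ 4))) +
      r ^ 6 * v1 ^ 2 * v2 ^ 2 * ((18 * M ^ 2 + 8 * M ^ 4 * V₂ ^ 2 * i ^ 8) *
        (V₁ * (2 * M * i + 2 * M ^ 2 * V₁ * i ^ 4))) +
      r ^ 6 * v1 ^ 2 * v2 ^ 2 * (V₁ ^ 3 * (u ^ 3 + i ^ 2) * v2 *
        ((2 * M * i + 2 * M ^ 2 * V₁ * i ^ 4) * (2 * M * i + 2 * M ^ 2 * V₂ * i ^ 4))) := by ring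
    _ ≤ 1000 * (M ^ 8 * (ρ ^ 2 * u ^ 2)) := by linarith

/-- one window -/
theorem xw_le (M V k0 R r i ω : ℝ) (hM : 1 ≤ M) (hV : 0 < V) (hk0 : 1 ≤ k0) (hr : 0 < r)
    (hi : 0 < i) (hi1 : i ≤ 1) (eri : r * i = 1) (hR : R = r ^ 2) (hRk : R ≤ M * k0)
    (hω : ω ≤ M * max 1 (V / k0)) :
    xw R V ω ≤ 2 * M * i + 2 * M ^ 2 * V * i ^ 4 := by
  have hM0 : 0 < M := by linarith
  have hk : 0 < k0 := by linarith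
  have hiR : 1 / R = i ^ 2 := by
    rw [hR, div_eq_iff (by positivity)]
    calc (1 : ℝ) = (r * i) ^ 2 := by rw [eri, one_pow]
      _ = i ^ 2 * r ^ 2 := by ring
  have hsq : √R = r := by rw [hR]; exact Real.sqrt_sq hr.le
  have e1 : 1 / √R = i := by
    rw [hsq, div_eq_iff hr.ne']
    linarith
  have e2 : V / R ^ 2 = V * i ^ 4 := by
    calc V / R ^ 2 = V * (1 / R) ^ 2 := by rw [one_div, inv_pow]; rfl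
      _ = V * i ^ 4 := by rw [hiR]; ring
  have e3 : ω / R = ω * i ^ 2 := by rw [← hiR]; ring
  have h1 : max 1 (V / k0) ≤ 1 + V / k0 := by
    apply max_le
    · have : 0 ≤ V / k0 := by positivity
      linarith
    · linarith
  have h2 : 1 / k0 ≤ M * i ^ 2 := by
    rw [div_le_iff₀ hk]
    calc (1 : ℝ) = (r * i) ^ 2 := by rw [eri, one_pow]
      _ = R * i ^ 2 := by rw [hR]; ring
      _ ≤ M * k0 * i ^ 2 := by gcongr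
      _ = M * i ^ 2 * k0 := by ring
  have h3 : ω * i ^ 2 ≤ M * i + M ^ 2 * V * i ^ 4 := by
    calc ω * i ^ 2 ≤ M * (1 + V / k0) * i ^ 2 := by
          have : ω ≤ M * (1 + V / k0) := hω.trans (by gcongr)
          gcongr
      _ = M * i ^ 2 + M * V * i ^ 2 * (1 / k0) := by ring
      _ ≤ M * i + M * V * i ^ 2 * (M * i ^ 2) := by
          have : i ^ 2 ≤ i := by nlinarith
          gcongr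
      _ = M * i + M ^ 2 * V * i ^ 4 := by ring
  have h4 : i ≤ M * i := by nlinarith
  have h5 : V * i ^ 4 ≤ M ^ 2 * V * i ^ 4 := by
    have : (1 : ℝ) ≤ M ^ 2 := one_le_pow₀ hM
    have h6 : 0 ≤ V * i ^ 4 := by positivity
    nlinarith
  unfold xw
  rw [e1, e2, e3]
  linarith

/-- the window is nonnegative -/
theorem xw_nonneg (R V ω : ℝ) (hR : 0 < R) (hV : 0 ≤ V) (hω : 0 ≤ ω) : 0 ≤ xw R V ω := by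
  unfold xw
  positivity

theorem one_add_sq (M V i x : ℝ) (hM : 1 ≤ M) (hV : 0 < V) (hi : 0 < i) (hi1 : i ≤ 1)
    (hx0 : 0 ≤ x) (hx : x ≤ 2 * M * i + 2 * M ^ 2 * V * i ^ 4) :
    (1 + x) ^ 2 ≤ 18 * M ^ 2 + 8 * M ^ 4 * V ^ 2 * i ^ 8 := by
  have h1 : 1 + x ≤ 3 * M + 2 * M ^ 2 * V * i ^ 4 := by
    have : 2 * M * i ≤ 2 * M := by nlinarith
    linarith
  calc (1 + x) ^ 2 ≤ (3 * M + 2 * M ^ 2 * V * i ^ 4) ^ 2 := by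
        gcongr
    _ ≤ 2 * (3 * M) ^ 2 + 2 * (2 * M ^ 2 * V * i ^ 4) ^ 2 := by
        nlinarith [sq_nonneg (3 * M - 2 * M ^ 2 * V * i ^ 4)]
    _ = 18 * M ^ 2 + 8 * M ^ 4 * V ^ 2 * i ^ 8 := by ring

/-- K_PHB -/
theorem phb : PHBStmt := by
  intro M V₁ V₂ k0 R u ω₁ ω₂ hM hV2 hV hV12 hk0 hu0 hu huV huk huR hRk hRV hω₁ hω₂ hω₁' hω₂'
  have hM0 : 0 < M := by linarith
  have hV20 : 0 < V₂ := by linarith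
  have hV10 : 0 < V₁ := by linarith
  have hR0 : 0 < R := by
    by_contra h
    push Not at h
    nlinarith
  have hR1 : 1 ≤ R := by nlinarith
  set r : ℝ := √R with hr_def
  have hr1 : 1 ≤ r := by
    rw [hr_def]
    exact Real.one_le_sqrt.2 hR1
  have hr0 : 0 < r := by linarith
  have hRr : R = r ^ 2 := (Real.sq_sqrt hR0.le).symm
  set i : ℝ := r⁻¹ with hi_def
  have hi0 : 0 < i := inv_pos.2 hr0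
  have hi1 : i ≤ 1 := inv_le_one_of_one_le₀ hr1
  have eri : r * i = 1 := mul_inv_cancel₀ hr0.ne'
  set v1 : ℝ := V₁⁻¹ with hv1_def
  set v2 : ℝ := V₂⁻¹ with hv2_def
  have hv1 : 0 < v1 := inv_pos.2 hV10
  have hv2 : 0 < v2 := inv_pos.2 hV20
  have e1 : V₁ * v1 = 1 := mul_inv_cancel₀ hV10.ne'
  have e2 : V₂ * v2 = 1 := mul_inv_cancel₀ hV20.ne'
  have eρ : V₁ * v2 = V₁ / V₂ := rfl
  have hρ : 1 ≤ V₁ / V₂ := by rw [le_div_iff₀ hV20]; linarith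
  have h1 : r ^ 4 * v1 * v2 ≤ M ^ 2 := by
    calc r ^ 4 * v1 * v2 = R ^ 2 * (v1 * v2) := by rw [hRr]; ring
      _ ≤ M ^ 2 * (V₁ * V₂) * (v1 * v2) := by gcongr
      _ = M ^ 2 * ((V₁ * v1) * (V₂ * v2)) := by ring
      _ = M ^ 2 := by rw [e1, e2]; ring
  have h2a : r ^ 2 ≤ M * V₁ := by
    have h : (r ^ 2) ^ 2 ≤ (M * V₁) ^ 2 := by
      calc (r ^ 2) ^ 2 = R ^ 2 := by rw [hRr]
        _ ≤ M ^ 2 * (V₁ * V₂) := hRV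
        _ ≤ M ^ 2 * (V₁ * V₁) := by gcongr
        _ = (M * V₁) ^ 2 := by ring
    exact (pow_le_pow_iff_left₀ (by positivity) (by positivity) (by norm_num)).1 h
  have h2 : r ^ 2 * v1 ≤ M := by
    calc r ^ 2 * v1 ≤ M * V₁ * v1 := by gcongr
      _ = M * (V₁ * v1) := by ring
      _ = M := by rw [e1, mul_one]
  have huV1 : 1 ≤ u ^ 4 * V₁ := huV.trans (by gcongr)
  have h7 : v1 ≤ u ^ 4 := by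
    calc v1 ≤ (u ^ 4 * V₁) * v1 := by nlinarith
      _ = u ^ 4 * (V₁ * v1) := by ring
      _ = u ^ 4 := by rw [e1, mul_one]
  have h6 : v2 ≤ u ^ 4 := by
    calc v2 ≤ (u ^ 4 * V₂) * v2 := by nlinarith
      _ = u ^ 4 * (V₂ * v2) := by ring
      _ = u ^ 4 := by rw [e2, mul_one]
  have h3 : r * v1 ≤ M * u ^ 2 := by
    have h : (r * v1) ^ 2 ≤ (M * u ^ 2) ^ 2 := by
      calc (r * v1) ^ 2 = (r ^ 2 * v1) * v1 := by ring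
        _ ≤ M * u ^ 4 := by gcongr
        _ ≤ M ^ 2 * u ^ 4 := by
            have : M ≤ M ^ 2 := by nlinarith
            gcongr
        _ = (M * u ^ 2) ^ 2 := by ring
    exact (pow_le_pow_iff_left₀ (by positivity) (by positivity) (by norm_num)).1 h
  have h4 : r * v2 ≤ M := by
    have h : (r * v2) ^ 4 ≤ M ^ 4 := by
      calc (r * v2) ^ 4 = (r ^ 4 * v1 * v2) * (V₁ * v1 : ℝ)⁻¹ * (V₁ * v2 ^ 3) := by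
            rw [e1, inv_one, mul_one]
            calc (r * v2) ^ 4 = r ^ 4 * v2 ^ 4 * (V₁ * v1) := by rw [e1, mul_one]; ring
              _ = r ^ 4 * v1 * v2 * (V₁ * v2 ^ 3) := by ring
        _ = (r ^ 4 * v1 * v2) * (V₁ * v2 ^ 3) := by rw [e1, inv_one, mul_one]
        _ ≤ M ^ 2 * (V₂ ^ 2 * v2 ^ 3) := by gcongr
        _ = M ^ 2 * ((V₂ * v2) ^ 2 * v2) := by ring
        _ = M ^ 2 * v2 := by rw [e2]; ring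
        _ ≤ M ^ 4 * 1 := by
            have h8 : M ^ 2 ≤ M ^ 4 := pow_le_pow_right₀ hM (by norm_num)
            have h9 : v2 ≤ 1 := h6.trans (pow_le_one₀ hu0.le hu)
            gcongr
        _ = M ^ 4 := mul_one _
    exact (pow_le_pow_iff_left₀ (by positivity) (by positivity) (by norm_num)).1 h
  have h5 : i ^ 2 ≤ u := by
    calc i ^ 2 ≤ (u * R) * i ^ 2 := by
          have : 0 < i ^ 2 := by positivity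
          nlinarith
      _ = u * (r * i) ^ 2 := by rw [hRr]; ring
      _ = u := by rw [eri]; ring
  have hx1 := xw_le M V₁ k0 R r i ω₁ hM hV10 hk0 hr0 hi0 hi1 eri hRr hRk hω₁'
  have hx2 := xw_le M V₂ k0 R r i ω₂ hM hV20 hk0 hr0 hi0 hi1 eri hRr hRk hω₂'
  have hx1' := xw_nonneg R V₁ ω₁ hR0 hV10.le (by linarith)
  have hx2' := xw_nonneg R V₂ ω₂ hR0 hV20.le (by linarith)
  have hs1 := one_add_sq M V₁ i _ hM hV10 hi0 hi1 hx1' hx1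
  have hs2 := one_add_sq M V₂ i _ hM hV20 hi0 hi1 hx2' hx2
  have hc := core M V₁ V₂ r i v1 v2 u (V₁ / V₂) hM hV10 hV20 hr0 hi0 hi1 hv1 hv2 eri e1 e2 eρ hρ
    hu0 hu h1 h2 h3 h4 h5 h6 h7
  have hRi : 1 / R = i ^ 2 := by
    rw [hRr, div_eq_iff (by positivity)]
    calc (1 : ℝ) = (r * i) ^ 2 := by rw [eri, one_pow]
      _ = i ^ 2 * r ^ 2 := by ring
  have hpre : R ^ 3 / (V₁ ^ 2 * V₂ ^ 2) = r ^ 6 * v1 ^ 2 * v2 ^ 2 := by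
    rw [div_eq_iff (by positivity)]
    calc R ^ 3 = r ^ 6 * (V₁ * v1) ^ 2 * (V₂ * v2) ^ 2 := by rw [hRr, e1, e2]; ring
      _ = r ^ 6 * v1 ^ 2 * v2 ^ 2 * (V₁ ^ 2 * V₂ ^ 2) := by ring
  unfold PH
  rw [hpre, hRi, div_eq_mul_inv (V₁ ^ 3 * (u ^ 3 + i ^ 2)) V₂]
  have hgoal : r ^ 6 * v1 ^ 2 * v2 ^ 2 * ((1 + xw R V₁ ω₁) ^ 2 * (1 + xw R V₂ ω₂) ^ 2 +
      (1 + xw R V₁ ω₁) ^ 2 * (V₂ * xw R V₂ ω₂) + (1 + xw R V₂ ω₂) ^ 2 * (V₁ * xw R V₁ ω₁) +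
      V₁ ^ 3 * (u ^ 3 + i ^ 2) * v2 * (xw R V₁ ω₁ * xw R V₂ ω₂)) ≤
      r ^ 6 * v1 ^ 2 * v2 ^ 2 * ((18 * M ^ 2 + 8 * M ^ 4 * V₁ ^ 2 * i ^ 8) *
        (18 * M ^ 2 + 8 * M ^ 4 * V₂ ^ 2 * i ^ 8) +
      (18 * M ^ 2 + 8 * M ^ 4 * V₁ ^ 2 * i ^ 8) * (V₂ * (2 * M * i + 2 * M ^ 2 * V₂ * i ^ 4)) +
      (18 * M ^ 2 + 8 * M ^ 4 * V₂ ^ 2 * i ^ 8) * (V₁ * (2 * M * i + 2 * M ^ 2 * V₁ * i ^ 4)) +
      V₁ ^ 3 * (u ^ 3 + i ^ 2) * v2 * ((2 * M * i + 2 * M ^ 2 * V₁ * i ^ 4) *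
        (2 * M * i + 2 * M ^ 2 * V₂ * i ^ 4))) := by
    gcongr
  calc _ ≤ _ := hgoal
    _ ≤ 1000 * (M ^ 8 * ((V₁ / V₂) ^ 2 * u ^ 2)) := hc
    _ ≤ 10 ^ 6 * M ^ 8 * ((V₁ / V₂) ^ 2 * u ^ 2) := by
        have : 0 ≤ M ^ 8 * ((V₁ / V₂) ^ 2 * u ^ 2) := by positivity
        nlinarith

end Pool.Agent.F5H.K2.H15
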