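import Pool.Agent.Helper36_F5H.StmtsK

/-!
# K_SMT (MP_f5cbfa_nt, squad F5H): lattice triples near a segment of the ray
-/

set_option autoImplicit false

open Complex

namespace Pool.Agent.F5H.K2.H15

open Pool.Agent.Helper68_F5 Pool.Agent.F5H.K2

/-- lattice points in a disc -/
theorem disc_card {g : ℤ × ℤ →+ ℂ} {K : ℝ}
    (hK : ∀ (u : ℂ), ‖u‖ = 1 → ∀ (A B α β : ℝ), 0 ≤ A → 0 ≤ B → ∀ S : Finset (ℤ × ℤ),
      (∀ z ∈ S, |sp u (g z) - α| ≤ A ∧ |wd u (g z) - β| ≤ B) →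
      (S.card : ℝ) ≤ K * (1 + A) * (1 + B)) (X : ℝ) (hX : 0 ≤ X) (a : ℂ) (S : Finset (ℤ × ℤ))
    (hS : ∀ z ∈ S, ‖g z - a‖ ≤ X) : (S.card : ℝ) ≤ K * (1 + X) ^ 2 := by
  have h := hK 1 norm_one X X (sp 1 a) (wd 1 a) hX hX S (by
    intro z hz
    constructor
    · rw [← sp_sub]
      refine le_trans (abs_sp_le _ _) ?_
      rw [norm_one, one_mul]
      exact hS z hz
    · rw [← wd_sub]
      refine le_trans (abs_wd_le _ _) ?_
      rw [norm_one, one_mul]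
      exact hS z hz)
  refine le_trans h (le_of_eq ?_)
  ring

/-- K_SMT -/
theorem smt : SMTStmt := by
  classical
  obtain ⟨K, hK1, hK⟩ := Helper38_F5.box 1 one_pos
  refine ⟨2916 * K ^ 3, ?_, ?_⟩
  · have : (1 : ℝ) ≤ K ^ 3 := one_le_pow₀ hK1
    linarith
  intro g hg P R₀ e₁ e₂ e₃ hP hR he1 he2 he3 𝓥 h𝓥
  have hbox := hK g hg
  have hex : ∀ v : T3, ∃ c : ℝ, v ∈ 𝓥 → |c| ≤ R₀ ∧ Near P c e₁ e₂ e₃ (g v.1) (g v.2.1) (g v.2.2) := by
    intro v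
    by_cases hv : v ∈ 𝓥
    · obtain ⟨c, hc⟩ := h𝓥 v hv
      exact ⟨c, fun _ => hc⟩
    · exact ⟨0, fun h => absurd h hv⟩
  choose c hc using hex
  have hmaps : ∀ v ∈ 𝓥, ⌊c v⌋ ∈ Finset.Icc ⌊-R₀⌋ ⌊R₀⌋ := by
    intro v hv
    have h1 := abs_le.1 (hc v hv).1
    exact Finset.mem_Icc.2 ⟨Int.floor_le_floor h1.1, Int.floor_le_floor h1.2⟩
  have hcard := Finset.card_eq_sum_card_fiberwise (f := fun v => ⌊c v⌋) (s := 𝓥)
    (t := Finset.Icc ⌊-R₀⌋ ⌊R₀⌋) (fun v hv => hmaps v hv)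
  have hfib : ∀ j ∈ Finset.Icc ⌊-R₀⌋ ⌊R₀⌋,
      (((𝓥.filter (fun v => ⌊c v⌋ = j)).card : ℕ) : ℝ) ≤ 729 * K ^ 3 * P ^ 6 := by
    intro j _
    set F := 𝓥.filter (fun v => ⌊c v⌋ = j) with hF
    have hnear : ∀ (e : ℂ) (w : ℂ) (t : ℝ), ‖e‖ = 1 → ⌊t⌋ = j → ‖w - (t : ℂ) * e‖ ≤ P →
        ‖w - (j : ℂ) * e‖ ≤ P + 1 := by
      intro e w t he ht hw
      have h1 : w - (j : ℂ) * e = (w - (t : ℂ) * e) + ((t - (j : ℝ) : ℝ) : ℂ) * e := by
        push_cast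
        ring
      rw [h1]
      refine (norm_add_le _ _).trans ?_
      rw [norm_mul, he, mul_one, Complex.norm_real, Real.norm_eq_abs]
      have h2 : |t - (j : ℝ)| ≤ 1 := by
        rw [← ht, abs_le]
        constructor
        · have := Int.floor_le t
          linarith
        · have := Int.lt_floor_add_one t
          linarith
      linarith
    have c1 : (((F.image (fun v => v.1)).card : ℕ) : ℝ) ≤ K * (1 + (P + 1)) ^ 2 := by
      apply disc_card hbox (P + 1) (by linarith) ((j : ℂ) * e₁)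
      intro z hz
      obtain ⟨v, hv, rfl⟩ := Finset.mem_image.1 hz
      rw [hF, Finset.mem_filter] at hv
      exact hnear e₁ _ (c v) he1 hv.2 (hc v hv.1).2.1
    have c2 : (((F.image (fun v => v.2.1)).card : ℕ) : ℝ) ≤ K * (1 + (P + 1)) ^ 2 := by
      apply disc_card hbox (P + 1) (by linarith) ((j : ℂ) * e₂)
      intro z hz
      obtain ⟨v, hv, rfl⟩ := Finset.mem_image.1 hz
      rw [hF, Finset.mem_filter] at hv
      exact hnear e₂ _ (c v) he2 hv.2 (hc v hv.1).2.2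
    have c3 : (((F.image (fun v => v.2.2)).card : ℕ) : ℝ) ≤ K * (1 + (P + 1)) ^ 2 := by
      apply disc_card hbox (P + 1) (by linarith) ((j : ℂ) * e₃)
      intro z hz
      obtain ⟨v, hv, rfl⟩ := Finset.mem_image.1 hz
      rw [hF, Finset.mem_filter] at hv
      exact hnear e₃ _ (c v) he3 hv.2 (hc v hv.1).2.3
    have hsub : F ⊆ (F.image (fun v => v.1)) ×ˢ (F.image (fun v => v.2.1)) ×ˢ
        (F.image (fun v => v.2.2)) := by
      intro v hv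
      simp only [Finset.mem_product]
      exact ⟨Finset.mem_image_of_mem (fun v : T3 => v.1) hv,
        Finset.mem_image_of_mem (fun v : T3 => v.2.1) hv,
        Finset.mem_image_of_mem (fun v : T3 => v.2.2) hv⟩
    have h1 : (F.card : ℝ) ≤ ((F.image (fun v => v.1)).card : ℝ) *
        (((F.image (fun v => v.2.1)).card : ℝ) * ((F.image (fun v => v.2.2)).card : ℝ)) := by
      have := Finset.card_le_card hsub
      rw [Finset.card_product, Finset.card_product] at this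
      exact_mod_cast this
    have hK0 : 0 ≤ K := by linarith
    have h2 : K * (1 + (P + 1)) ^ 2 ≤ 9 * K * P ^ 2 := by
      have : (1 + (P + 1)) ^ 2 ≤ (3 * P) ^ 2 := by
        apply pow_le_pow_left₀ (by linarith)
        linarith
      calc K * (1 + (P + 1)) ^ 2 ≤ K * (3 * P) ^ 2 := mul_le_mul_of_nonneg_left this hK0
        _ = 9 * K * P ^ 2 := by ring
    calc (F.card : ℝ) ≤ _ := h1
      _ ≤ (9 * K * P ^ 2) * ((9 * K * P ^ 2) * (9 * K * P ^ 2)) := by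
          refine mul_le_mul (c1.trans h2) (mul_le_mul (c2.trans h2) (c3.trans h2) (by positivity)
            (by positivity)) (by positivity) (by positivity)
      _ = 729 * K ^ 3 * P ^ 6 := by ring
  have hN : (((Finset.Icc ⌊-R₀⌋ ⌊R₀⌋).card : ℕ) : ℝ) ≤ 4 * R₀ := by
    rw [Int.card_Icc]
    have h1 : (⌊R₀⌋ : ℝ) ≤ R₀ := Int.floor_le R₀
    have h2 : (-R₀ : ℝ) < (⌊-R₀⌋ : ℝ) + 1 := Int.lt_floor_add_one (-R₀)
    have h3 : ((⌊R₀⌋ + 1 - ⌊-R₀⌋ : ℤ) : ℝ) ≤ 4 * R₀ := by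
      push_cast
      linarith
    have h4 : (0 : ℤ) ≤ ⌊R₀⌋ + 1 - ⌊-R₀⌋ := by
      have h5 : ⌊-R₀⌋ ≤ ⌊R₀⌋ := Int.floor_le_floor (by linarith)
      omega
    have h6 : (((⌊R₀⌋ + 1 - ⌊-R₀⌋).toNat : ℕ) : ℝ) = ((⌊R₀⌋ + 1 - ⌊-R₀⌋ : ℤ) : ℝ) := by
      exact_mod_cast Int.toNat_of_nonneg h4
    rw [h6]
    exact h3
  calc (𝓥.card : ℝ) = ∑ j ∈ Finset.Icc ⌊-R₀⌋ ⌊R₀⌋,
        (((𝓥.filter (fun v => ⌊c v⌋ = j)).card : ℕ) : ℝ) := by
        rw [hcard]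
        push_cast
        rfl
    _ ≤ ∑ j ∈ Finset.Icc ⌊-R₀⌋ ⌊R₀⌋, 729 * K ^ 3 * P ^ 6 := Finset.sum_le_sum hfib
    _ = ((Finset.Icc ⌊-R₀⌋ ⌊R₀⌋).card : ℝ) * (729 * K ^ 3 * P ^ 6) := by
        rw [Finset.sum_const, nsmul_eq_mul]
    _ ≤ 4 * R₀ * (729 * K ^ 3 * P ^ 6) := by
        apply mul_le_mul_of_nonneg_right hN
        have : 0 ≤ K := by linarith
        positivity
    _ = 2916 * K ^ 3 * P ^ 6 * R₀ := by ring

end Pool.Agent.F5H.K2.H15
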